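import Mathlib
import Pool.Agent.PC.Sieve
import Pool.Agent.Helper89.GP.Defs

/-!
# A positive proportion of the admissible `n` for every `m`
-/

set_option autoImplicit false

namespace Pool.Agent.Helper89.GP

open Finset Filter

/-- number of shifts in `[2m, 3m)` -/
def rr (m n : ℕ) : ℕ := ((Ico (2 * m) (3 * m)).filter fun d => (n - d).Prime).card

/-- prime pairs with difference `h` up to `N` -/
def pp (N h : ℕ) : ℕ := ((Ioc 0 N).filter fun k => k.Prime ∧ (k + h).Prime).card

lemma card_shift_le (N d : ℕ) :
    ((Icc 1 N).filter fun n => (n - d).Prime).card ≤ Nat.primeCounting N := by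
  rw [Nat.primeCounting, Nat.primeCounting', Nat.count_eq_card_filter_range]
  apply card_le_card_of_injOn (fun n => n - d)
  · intro n hn
    simp only [coe_filter, mem_Icc, Set.mem_ofPred_eq] at hn
    simp only [coe_filter, mem_range, Set.mem_ofPred_eq]
    exact ⟨by omega, hn.2⟩
  · intro a ha b hb hab
    simp only [coe_filter, mem_Icc, Set.mem_ofPred_eq] at ha hb hab
    have h1 := ha.2.two_le
    have h2 := hb.2.two_le
    omega

lemma le_card_shift (N K d : ℕ) (h : K + d ≤ N) :
    Nat.primeCounting K ≤ ((Icc 1 N).filter fun n => (n - d).Prime).card := by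
  rw [Nat.primeCounting, Nat.primeCounting', Nat.count_eq_card_filter_range]
  apply card_le_card_of_injOn (fun p => p + d)
  · intro p hp
    simp only [coe_filter, mem_range, Set.mem_ofPred_eq] at hp
    simp only [coe_filter, mem_Icc, Set.mem_ofPred_eq]
    have := hp.2.two_le
    refine ⟨by omega, ?_⟩
    rw [Nat.add_sub_cancel]
    exact hp.2
  · intro a _ b _ hab
    simp only at hab
    omega

lemma card_pair_le (N a b : ℕ) (hab : a < b) :
    ((Icc 1 N).filter fun n => (n - a).Prime ∧ (n - b).Prime).card ≤ pp N (b - a) := by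
  apply card_le_card_of_injOn (fun n => n - b)
  · intro n hn
    simp only [coe_filter, mem_Icc, Set.mem_ofPred_eq] at hn
    have h1 := hn.2.2.two_le
    simp only [coe_filter, mem_Ioc, Set.mem_ofPred_eq]
    refine ⟨by omega, hn.2.2, ?_⟩
    rw [show n - b + (b - a) = n - a by omega]
    exact hn.2.1
  · intro x hx y hy hxy
    simp only [coe_filter, mem_Icc, Set.mem_ofPred_eq] at hx hy hxy
    have h1 := hx.2.2.two_le
    have h2 := hy.2.2.two_le
    omega

lemma sum_rr (m N : ℕ) :
    ∑ n ∈ Icc 1 N, rr m n = ∑ d ∈ Ico (2 * m) (3 * m), ((Icc 1 N).filter fun n => (n - d).Prime).card := by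
  unfold rr
  simp only [card_filter]
  rw [sum_comm]

lemma sum_rr_sq (m N : ℕ) :
    ∑ n ∈ Icc 1 N, rr m n ^ 2 = ∑ a ∈ Ico (2 * m) (3 * m), ∑ b ∈ Ico (2 * m) (3 * m),
      ((Icc 1 N).filter fun n => (n - a).Prime ∧ (n - b).Prime).card := by
  have h1 : ∀ n, rr m n ^ 2 = ∑ a ∈ Ico (2 * m) (3 * m), ∑ b ∈ Ico (2 * m) (3 * m),
      if (n - a).Prime ∧ (n - b).Prime then 1 else 0 := by
    intro n
    unfold rr
    rw [sq, card_filter, sum_mul_sum]
    apply sum_congr rfl
    intro a _
    apply sum_congr rfl
    intro b _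
    by_cases ha : (n - a).Prime <;> by_cases hb : (n - b).Prime <;> simp [ha, hb]
  simp only [h1, card_filter]
  rw [sum_comm]
  apply sum_congr rfl
  intro a _
  rw [sum_comm]

lemma sum_rr_sq_le (m N : ℕ) :
    ∑ n ∈ Icc 1 N, rr m n ^ 2 ≤ m * Nat.primeCounting N + 2 * m * ∑ h ∈ Icc 1 m, pp N h := by
  rw [sum_rr_sq]
  have key : ∀ a ∈ Ico (2 * m) (3 * m), ∑ b ∈ Ico (2 * m) (3 * m),
      ((Icc 1 N).filter fun n => (n - a).Prime ∧ (n - b).Prime).card ≤
      Nat.primeCounting N + 2 * ∑ h ∈ Icc 1 m, pp N h := by
    intro a ha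
    rw [mem_Ico] at ha
    have hsplit : ∀ b ∈ Ico (2 * m) (3 * m),
        ((Icc 1 N).filter fun n => (n - a).Prime ∧ (n - b).Prime).card ≤
        (if b = a then Nat.primeCounting N else 0) + (if a < b then pp N (b - a) else 0) +
          (if b < a then pp N (a - b) else 0) := by
      intro b _
      rcases lt_trichotomy a b with h | h | h
      · have h1 : b ≠ a := by omega
        have h2 : ¬ b < a := by omega
        simp only [h, h1, h2, if_true, if_false, zero_add, add_zero]
        exact card_pair_le N a b h
      · subst h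
        simp only [if_true, lt_irrefl, if_false, add_zero, and_self]
        exact card_shift_le N a
      · have h1 : b ≠ a := by omega
        have h2 : ¬ a < b := by omega
        simp only [h, h1, h2, if_true, if_false, zero_add]
        have h3 := card_pair_le N b a h
        simpa only [and_comm] using h3
    refine (sum_le_sum hsplit).trans ?_
    rw [sum_add_distrib, sum_add_distrib]
    have e1 : ∑ b ∈ Ico (2 * m) (3 * m), (if b = a then Nat.primeCounting N else 0) ≤
        Nat.primeCounting N := by
      rw [sum_ite_eq' (Ico (2 * m) (3 * m)) a (fun _ => Nat.primeCounting N)]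
      split_ifs <;> simp
    have e2 : ∑ b ∈ Ico (2 * m) (3 * m), (if a < b then pp N (b - a) else 0) ≤
        ∑ h ∈ Icc 1 m, pp N h := by
      rw [← sum_filter]
      have : ∑ b ∈ (Ico (2 * m) (3 * m)).filter (fun b => a < b), pp N (b - a) =
          ∑ h ∈ ((Ico (2 * m) (3 * m)).filter (fun b => a < b)).image (fun b => b - a), pp N h := by
        rw [sum_image]
        intro x hx y hy hxy
        simp only [coe_filter, mem_Ico, Set.mem_ofPred_eq] at hx hy
        simp only at hxy
        omega
      rw [this]
      apply sum_le_sum_of_subset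
      intro h hh
      rw [mem_image] at hh
      obtain ⟨b, hb, rfl⟩ := hh
      rw [mem_filter, mem_Ico] at hb
      rw [mem_Icc]
      omega
    have e3 : ∑ b ∈ Ico (2 * m) (3 * m), (if b < a then pp N (a - b) else 0) ≤
        ∑ h ∈ Icc 1 m, pp N h := by
      rw [← sum_filter]
      have : ∑ b ∈ (Ico (2 * m) (3 * m)).filter (fun b => b < a), pp N (a - b) =
          ∑ h ∈ ((Ico (2 * m) (3 * m)).filter (fun b => b < a)).image (fun b => a - b), pp N h := by
        rw [sum_image]
        intro x hx y hy hxy
        simp only [coe_filter, mem_Ico, Set.mem_ofPred_eq] at hx hy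
        simp only at hxy
        omega
      rw [this]
      apply sum_le_sum_of_subset
      intro h hh
      rw [mem_image] at hh
      obtain ⟨b, hb, rfl⟩ := hh
      rw [mem_filter, mem_Ico] at hb
      rw [mem_Icc]
      omega
    omega
  refine (sum_le_sum key).trans ?_
  rw [sum_const, Nat.card_Ico, smul_eq_mul]
  have : 3 * m - 2 * m = m := by omega
  rw [this]
  nlinarith

end Pool.Agent.Helper89.GP
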