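import Mathlib
import Pool.Agent.Helper89.GP.Count

/-!
# The second moment argument
-/

set_option autoImplicit false

namespace Pool.Agent.Helper89.GP

open Finset Filter

lemma log_succ_le {K : ℕ} (hK : 100 ≤ K) : Real.log (K + 1) ≤ 0.3 * K := by
  have hK' : (100 : ℝ) ≤ K := by exact_mod_cast hK
  have h1 := Pool.Agent.PC.BlockB.log_sq_le (x := (K : ℝ) + 1) (by linarith)
  have h2 : (0 : ℝ) ≤ 0.3 * K := by linarith
  apply le_of_sq_le_sq _ h2
  nlinarith

lemma pi_lower {K : ℕ} (hK : 100 ≤ K) : (K : ℝ) / (4 * Real.log K) ≤ Nat.primeCounting K := by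
  have h1 := Chebyshev.pi_ge K
  have h2 := log_succ_le hK
  have hK' : (100 : ℝ) ≤ K := by exact_mod_cast hK
  have hl : 0 < Real.log K := Real.log_pos (by linarith)
  have h3 := Real.log_two_gt_d9
  refine le_trans ?_ h1
  rw [div_le_div_iff₀ (by positivity) hl]
  have : (K : ℝ) ≤ 4 * (K * Real.log 2 - Real.log (K + 1)) := by nlinarith
  nlinarith

lemma pi_quarter {N K : ℕ} (hN : 2000 ≤ N) (hK : N ≤ 5 * K) (hKN : K ≤ N) :
    (N : ℝ) / (20 * Real.log N) ≤ Nat.primeCounting K := by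
  have hK1 : 100 ≤ K := by omega
  refine le_trans ?_ (pi_lower hK1)
  have h1 : (N : ℝ) ≤ 5 * K := by exact_mod_cast hK
  have h2 : (K : ℝ) ≤ N := by exact_mod_cast hKN
  have h3 : (100 : ℝ) ≤ K := by exact_mod_cast hK1
  have hl : 0 < Real.log K := Real.log_pos (by linarith)
  have hl2 : Real.log K ≤ Real.log N := Real.log_le_log (by linarith) h2
  rw [div_le_div_iff₀ (by linarith) (by linarith)]
  nlinarith [mul_le_mul h1 hl2 hl.le (by linarith : (0 : ℝ) ≤ 5 * K)]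

lemma pi_upper : ∃ N₀ : ℕ, ∀ N ≥ N₀, (Nat.primeCounting N : ℝ) ≤ 3 * N / Real.log N := by
  have h := Chebyshev.eventually_primeCounting_le (ε := 1) one_pos
  have h2 := tendsto_natCast_atTop_atTop (R := ℝ) |>.eventually h
  obtain ⟨N₀, hN₀⟩ := eventually_atTop.1 (h2.and (eventually_ge_atTop 2))
  refine ⟨N₀, fun N hN => ?_⟩
  obtain ⟨h3, h4⟩ := hN₀ N hN
  rw [Nat.floor_natCast] at h3
  refine h3.trans ?_
  have h5 : (2 : ℝ) ≤ N := by exact_mod_cast h4
  have hl : 0 < Real.log N := Real.log_pos (by linarith)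
  have h6 : Real.log 4 < 2 := by
    rw [show (4 : ℝ) = 2 ^ 2 by norm_num, Real.log_pow]
    have := Real.log_two_lt_d9
    push_cast
    linarith
  rw [div_le_div_iff_of_pos_right hl]
  nlinarith

lemma sum_pp_le : ∃ C : ℝ, 0 < C ∧ ∀ N m : ℕ, 2 ≤ N →
    (((∑ h ∈ Icc 1 m, pp N h : ℕ)) : ℝ) ≤ C * m * N / Real.log N ^ 2 := by
  obtain ⟨C₁, hC₁, h1⟩ := Pool.Agent.PC.pair_sieve
  obtain ⟨C₂, hC₂, h2⟩ := Pool.Agent.PC.sum_ratio_sq
  refine ⟨C₁ * C₂, by positivity, fun N m hN => ?_⟩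
  have hN' : (2 : ℝ) ≤ N := by exact_mod_cast hN
  have hl : 0 < Real.log N := Real.log_pos (by linarith)
  push_cast
  calc (∑ h ∈ Icc 1 m, (pp N h : ℝ))
      ≤ ∑ h ∈ Icc 1 m, C₁ * N / Real.log N ^ 2 * ((h : ℝ) / Nat.totient h) ^ 2 := by
        apply sum_le_sum
        intro h hh
        rw [mem_Icc] at hh
        have h3 := h1 0 N h hN (by omega)
        rw [zero_add] at h3
        unfold pp
        refine h3.trans ?_
        have h4 := Pool.Agent.PC.BlockB.ratio_ge_one (h := h) (by omega)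
        have h5 : (h : ℝ) / Nat.totient h ≤ ((h : ℝ) / Nat.totient h) ^ 2 := by nlinarith
        calc C₁ * ((h : ℝ) / Nat.totient h) * N / Real.log N ^ 2
            = C₁ * N / Real.log N ^ 2 * ((h : ℝ) / Nat.totient h) := by ring
          _ ≤ _ := by gcongr
    _ = C₁ * N / Real.log N ^ 2 * ∑ h ∈ Icc 1 m, ((h : ℝ) / Nat.totient h) ^ 2 := by
        rw [mul_sum]
    _ ≤ C₁ * N / Real.log N ^ 2 * (C₂ * m) := by
        gcongr
        exact h2 m
    _ = _ := by ring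

lemma alg1 (x L N : ℝ) (hL : 0 < L) : (x * L * (N / (20 * L))) ^ 2 = (x * N / 20) ^ 2 := by
  field_simp

lemma alg2 (A C x L N : ℝ) (hL : 0 < L) :
    A * (x * L * (3 * N / L) + 2 * (x * L) * (C * (x * L) * N / L ^ 2)) =
      A * (x * N * (3 + 2 * C * x)) := by
  field_simp

lemma alg3 (C x N : ℝ) (hC : 0 < C) :
    1 / (400 * (3 + 2 * C)) * N * x = (x * N / 400) / (3 + 2 * C) := by
  field_simp

lemma alg4 (C N : ℝ) (hC : 0 < C) :
    1 / (400 * (3 + 2 * C)) * N = (N / 400) / (3 + 2 * C) := by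
  field_simp

theorem second_moment : ∃ c : ℝ, 0 < c ∧ ∃ N₀ : ℕ, ∀ N ≥ N₀, ∀ m : ℕ, 1 ≤ m → 4 * m ≤ N →
    c * N * min 1 (m / Real.log N) ≤ (((Icc 1 N).filter fun n => 0 < rr m n).card : ℝ) := by
  obtain ⟨N₁, hN₁⟩ := pi_upper
  obtain ⟨C, hC, hsum⟩ := sum_pp_le
  refine ⟨1 / (400 * (3 + 2 * C)), by positivity, max N₁ 2000, fun N hN m hm h4 => ?_⟩
  have hN1 : N₁ ≤ N := le_trans (le_max_left _ _) hN
  have hN2 : 2000 ≤ N := le_trans (le_max_right _ _) hN
  have hN' : (2000 : ℝ) ≤ N := by exact_mod_cast hN2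
  have hm' : (1 : ℝ) ≤ m := by exact_mod_cast hm
  have hl : 0 < Real.log N := Real.log_pos (by linarith)
  obtain ⟨L, hL⟩ : ∃ L : ℝ, L = Real.log N := ⟨_, rfl⟩
  have hpi := hN₁ N hN1
  have hs := hsum N m (by omega)
  rw [← hL] at hl hpi hs ⊢
  -- first moment
  have S1 : (m : ℝ) * (N / (20 * L)) ≤ ((∑ n ∈ Icc 1 N, rr m n : ℕ) : ℝ) := by
    have h1 : m * Nat.primeCounting (N / 4) ≤ ∑ n ∈ Icc 1 N, rr m n := by
      rw [sum_rr]
      have h2 : ∀ d ∈ Ico (2 * m) (3 * m), Nat.primeCounting (N / 4) ≤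
          ((Icc 1 N).filter fun n => (n - d).Prime).card := by
        intro d hd
        rw [mem_Ico] at hd
        apply le_card_shift
        omega
      have h3 := card_nsmul_le_sum _ _ _ h2
      rw [Nat.card_Ico, smul_eq_mul, show 3 * m - 2 * m = m by omega] at h3
      exact h3
    have h2 := pi_quarter (N := N) (K := N / 4) hN2 (by omega) (by omega)
    rw [← hL] at h2
    calc (m : ℝ) * (N / (20 * L)) ≤ m * Nat.primeCounting (N / 4) := by gcongr
      _ ≤ _ := by exact_mod_cast h1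
  -- second moment
  have S2 : ((∑ n ∈ Icc 1 N, rr m n ^ 2 : ℕ) : ℝ) ≤
      m * (3 * N / L) + 2 * m * (C * m * N / L ^ 2) := by
    have h1 : ((∑ n ∈ Icc 1 N, rr m n ^ 2 : ℕ) : ℝ) ≤
        ((m * Nat.primeCounting N + 2 * m * ∑ h ∈ Icc 1 m, pp N h : ℕ) : ℝ) := by
      exact_mod_cast sum_rr_sq_le m N
    refine h1.trans ?_
    rw [Nat.cast_add, Nat.cast_mul, Nat.cast_mul, Nat.cast_mul, Nat.cast_ofNat]
    gcongr
  -- Cauchy-Schwarz
  obtain ⟨A, hA⟩ : ∃ A : Finset ℕ, A = (Icc 1 N).filter fun n => 0 < rr m n := ⟨_, rfl⟩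
  have CS : ((∑ n ∈ Icc 1 N, rr m n : ℕ) : ℝ) ^ 2 ≤
      A.card * ((∑ n ∈ Icc 1 N, rr m n ^ 2 : ℕ) : ℝ) := by
    have e1 : ∑ n ∈ Icc 1 N, rr m n = ∑ n ∈ A, rr m n := by
      rw [hA, sum_filter]
      apply sum_congr rfl
      intro n _
      split_ifs with h
      · rfl
      · omega
    have e2 : ∑ n ∈ A, rr m n ^ 2 ≤ ∑ n ∈ Icc 1 N, rr m n ^ 2 := by
      rw [hA]
      exact sum_le_sum_of_subset (filter_subset _ _)
    have e3 : (∑ n ∈ A, rr m n) ^ 2 ≤ A.card * ∑ n ∈ A, rr m n ^ 2 :=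
      sq_sum_le_card_mul_sum_sq
    have e4 : (∑ n ∈ Icc 1 N, rr m n) ^ 2 ≤ A.card * ∑ n ∈ Icc 1 N, rr m n ^ 2 := by
      rw [e1]
      exact e3.trans (Nat.mul_le_mul_left _ e2)
    exact_mod_cast e4
  rw [← hA]
  obtain ⟨x, hx⟩ : ∃ x : ℝ, x = m / L := ⟨_, rfl⟩
  have hx0 : 0 < x := by rw [hx]; positivity
  have hmx : (m : ℝ) = x * L := by rw [hx]; field_simp
  rw [← hx]
  have hA0 : (0 : ℝ) ≤ A.card := Nat.cast_nonneg _
  have T : (x * N / 20) ^ 2 ≤ A.card * (x * N * (3 + 2 * C * x)) := by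
    calc (x * N / 20) ^ 2 = ((m : ℝ) * (N / (20 * L))) ^ 2 := by
          rw [hmx, alg1 x L N hl]
      _ ≤ ((∑ n ∈ Icc 1 N, rr m n : ℕ) : ℝ) ^ 2 := by
          apply pow_le_pow_left₀ _ S1
          positivity
      _ ≤ _ := CS
      _ ≤ A.card * (m * (3 * N / L) + 2 * m * (C * m * N / L ^ 2)) :=
          mul_le_mul_of_nonneg_left S2 hA0
      _ = _ := by rw [hmx, alg2 _ C x L N hl]
  have hN0 : (0 : ℝ) < N := by linarith
  have T2 : x * N / 400 ≤ A.card * (3 + 2 * C * x) := by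
    have hxN : 0 < x * N := by positivity
    have : (x * N) * (x * N / 400) ≤ (x * N) * (A.card * (3 + 2 * C * x)) := by
      calc (x * N) * (x * N / 400) = (x * N / 20) ^ 2 := by ring
        _ ≤ _ := T
        _ = _ := by ring
    exact le_of_mul_le_mul_left this hxN
  rcases le_total x 1 with h1 | h1
  · rw [min_eq_right h1]
    have : 3 + 2 * C * x ≤ 3 + 2 * C := by nlinarith
    have T3 : x * N / 400 ≤ A.card * (3 + 2 * C) :=
      T2.trans (mul_le_mul_of_nonneg_left this hA0)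
    rw [alg3 C x N hC]
    rw [div_le_iff₀ (by positivity)]
    exact T3
  · rw [min_eq_left h1, mul_one]
    have : 3 + 2 * C * x ≤ (3 + 2 * C) * x := by nlinarith
    have T3 : x * N / 400 ≤ A.card * ((3 + 2 * C) * x) :=
      T2.trans (mul_le_mul_of_nonneg_left this hA0)
    have T4 : N / 400 ≤ A.card * (3 + 2 * C) := by
      have : x * (N / 400) ≤ x * (A.card * (3 + 2 * C)) := by
        calc x * ((N : ℝ) / 400) = x * N / 400 := by ring
          _ ≤ _ := T3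
          _ = _ := by ring
      exact le_of_mul_le_mul_left this hx0
    rw [alg4 C N hC]
    rw [div_le_iff₀ (by positivity)]
    exact T4

end Pool.Agent.Helper89.GP
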